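import Pool.Agent.R538.SR.Down

/-!
# First-move self-regulating pushdown automata: the language families
-/

namespace Pool.Agent.Results.MP_a569f2_lc.EqualSegments

open Pool.Agent.R538.SR

/-- For every `n ≥ 1`, the languages accepted by `n`-turn first-move self-regulating pushdown
automata are exactly the images `h (K ∩ E n)` under homomorphisms `h` (which erase the mark `#`) of
the intersections of languages `K` of real-time pushdown automata with the language `E n` of all
words `x_0 # x_1 # ... # x_n` with `|x_0| = |x_1| = ... = |x_n|`. -/
theorem result (n : ℕ) (hn : 1 ≤ n) (S : Type) (L : Set (List S)) :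
    FSPDA n L ↔ ∃ (T : Type) (_ : Finite T) (K : Set (List (Option T))) (h : T → List S),
      RealTime K ∧ L = {w | ∃ x ∈ K, x ∈ E n T ∧ w = hom h x} := by
  constructor
  · exact dn_main n hn
  · rintro ⟨T, _, K, h, hK, rfl⟩
    exact up_main n hn hK h

end Pool.Agent.Results.MP_a569f2_lc.EqualSegments
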