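import Pool.Agent.R652.SR.Main
import Pool.Agent.R652.SR.A1
import Pool.Agent.R652.SR.A2
import Pool.Agent.R652.SR.B1
import Pool.Agent.R652.SR.B2A
import Pool.Agent.R652.SR.B2B
import Pool.Agent.R652.SR.B3F
import Pool.Agent.R652.SR.B3S
import Pool.Agent.R652.SR.B3C
import Pool.Agent.R652.SR.PK
import Pool.Agent.R652.SR.SM
import Pool.Agent.R652.SR.XE
import Pool.Agent.R652.SR.CI

set_option autoImplicit false

/-!
# The family `FSPDA_n` of the first-move self-regulating pushdown automata

For every `n ≥ 1` the `n`-turn first-move self-regulating pushdown automata accept exactly the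
homomorphic images of intersections of a context-free language with an `(n+1)`-parallel right-linear
language.  The family contains the context-free languages, its languages have semilinear
commutative images, and it misses a decidable language.
-/

namespace Pool.Agent.Results.MP_a569f2_lc.FirstMoveFamily

open Pool.Agent.R652.SR

theorem tfae {n : ℕ} (hn : 1 ≤ n) {A : Type} (L : Language A) :
    [FSPDA n L, HCP (n + 1) L, HCPs (n + 1) L].TFAE :=
  main_of t_A1 t_A2 t_B1 t_B2a t_B2b t_B3f t_B3s t_B3c hn L

/-- `FSPDA_n` is the family of the homomorphic images of the intersections of context-free languages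
with `(n+1)`-parallel right-linear languages; it contains the context-free languages, all
its languages have a semilinear commutative image, and it misses a decidable language. -/
theorem result (n : ℕ) (hn : 1 ≤ n) :
    (∀ (A : Type) (L : Language A), [FSPDA n L, HCP (n + 1) L, HCPs (n + 1) L].TFAE) ∧
    (∀ (A : Type) (_ : Fintype A) (L : Language A), L.IsContextFree → FSPDA n L) ∧
    ((∀ (A : Type) (_ : Fintype A) (_ : DecidableEq A) (L : Language A), FSPDA n L →
      IsSemilinearSet (Par L)) ∧
      ∃ L : Language Unit, ComputablePred (fun w : List Unit => w ∈ L) ∧ ¬ FSPDA n L) :=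
  ⟨fun _ L => tfae hn L, fun A fA L h => ((tfae hn L).out 0 1).2 (t_CI A fA n L h),
    re_of (t_SM t_PK) t_XE (fun L => tfae hn L)⟩

end Pool.Agent.Results.MP_a569f2_lc.FirstMoveFamily
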